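import Pool.Agent.Q175.HH.Main

/-!
Nonexistence of distributional solutions of `(-Δ)^m u = |x|^σ u^p` whenever
`(-1)^m ∏_{j<m} (-θ-2j)(-θ+n-2-2j) ≤ 0`, i.e. whenever `C|x|^{-θ}` is not a solution.
In particular the answer to Q1 is no.
-/

set_option autoImplicit false

open MeasureTheory InnerProductSpace Laplacian
open scoped ContDiff

namespace Pool.Agent.Results.MP_643687_an.NonexistenceBySign

/-- `ℝⁿ` -/
abbrev R (n : ℕ) : Type := EuclideanSpace ℝ (Fin n)

/-- `(-Δ)^m φ`, for smooth `φ` -/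
noncomputable def polyLap {n : ℕ} (m : ℕ) (φ : R n → ℝ) (x : R n) : ℝ :=
  (-1) ^ m * ((fun f : R n → ℝ => Δ f)^[m] φ) x

/-- `θ = (2m + σ) / (p - 1)` -/
noncomputable def theta (m : ℕ) (p σ : ℝ) : ℝ := (2 * m + σ) / (p - 1)

/-- `u` is a distributional solution of `(-Δ)^m u = |x|^σ u^p` in `ℝⁿ`: `u ≥ 0` a.e., `u` is not a.e.
zero, `u` and `|x|^σ u^p` are locally integrable, and the equation holds against all test
functions. -/
def IsDistSolution (n m : ℕ) (p σ : ℝ) (u : R n → ℝ) : Prop :=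
  (∀ᵐ x, 0 ≤ u x) ∧ ¬ (u =ᵐ[volume] fun _ => 0) ∧ LocallyIntegrable u ∧
    LocallyIntegrable (fun x => ‖x‖ ^ σ * u x ^ p) ∧
    ∀ φ : R n → ℝ, ContDiff ℝ ∞ φ → HasCompactSupport φ →
      ∫ x, u x * polyLap m φ x = ∫ x, ‖x‖ ^ σ * u x ^ p * φ x

/-- (1) For all `n, m ≥ 1`, `p > 1` and all real `σ` with
`(-1)^m ∏_{j<m} (-θ-2j)(-θ+n-2-2j) ≤ 0` there is no distributional solution. (The number on the left
is the `c` in `(-Δ)^m |x|^{-θ} = c |x|^{-θ-2m}`.)
(2) For `m = 2`: there is none whenever `σ < -4`, `n - 4 - θ > 0` and `θ ≥ -2`.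
(3) The negated form of Q1: there are `m ≥ 2`, `n ≥ 1`, `p > 1`, `σ < -2m` with `n - 2m - θ > 0` for
which there is no distributional solution. -/
theorem result :
    (∀ (n m : ℕ) (p σ : ℝ), 1 ≤ n → 1 ≤ m → 1 < p →
      (-1) ^ m * ∏ j ∈ Finset.range m,
        ((-theta m p σ - 2 * j) * (-theta m p σ + n - 2 - 2 * j)) ≤ 0 →
      ¬ ∃ u : R n → ℝ, IsDistSolution n m p σ u) ∧
    (∀ (n : ℕ) (p σ : ℝ), 1 ≤ n → 1 < p → σ < -4 → 0 < n - 4 - theta 2 p σ → -2 ≤ theta 2 p σ →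
      ¬ ∃ u : R n → ℝ, IsDistSolution n 2 p σ u) ∧
    ∃ (m n : ℕ) (p σ : ℝ), 2 ≤ m ∧ 1 ≤ n ∧ 1 < p ∧ σ < -(2 * m) ∧ 0 < n - 2 * m - theta m p σ ∧
      ¬ ∃ u : R n → ℝ, IsDistSolution n m p σ u := by
  have h1 : ∀ (n m : ℕ) (p σ : ℝ), 1 ≤ n → 1 ≤ m → 1 < p →
      (-1) ^ m * ∏ j ∈ Finset.range m,
        ((-theta m p σ - 2 * j) * (-theta m p σ + n - 2 - 2 * j)) ≤ 0 →
      ¬ ∃ u : R n → ℝ, IsDistSolution n m p σ u := by
    rintro n m p σ hn - hp hs ⟨u, hu0, hune, hu, hf, heq⟩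
    apply hune
    have hp1 : p - 1 ≠ 0 := by linarith
    refine Q175.HH.none (m := m) (p := p) (σ := σ) (b := m + theta m p σ / 2 - n / 2) hn hp ?_ ?_ hu0 hu hf heq
    · unfold theta
      field_simp
      ring
    · have e : ∏ i ∈ Finset.range m, (4 * ((m:ℝ) + theta m p σ / 2 - n / 2 - i) *
          ((m:ℝ) + theta m p σ / 2 - n / 2 - i - 1 + n / 2)) =
          ∏ j ∈ Finset.range m, ((-theta m p σ - 2 * j) * (-theta m p σ + n - 2 - 2 * j)) := by
        rw [← Finset.prod_range_reflect]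
        refine Finset.prod_congr rfl fun i hi => ?_
        have hi' : i < m := Finset.mem_range.mp hi
        have : ((m - 1 - i : ℕ) : ℝ) = (m:ℝ) - 1 - i := by
          rw [Nat.cast_sub (by omega), Nat.cast_sub (by omega)]
          push_cast
          ring
        rw [this]
        ring
      rw [e]
      exact hs
  refine ⟨h1, ?_, ?_⟩
  · intro n p σ hn hp hσ h4 h2
    apply h1 n 2 p σ hn (by norm_num) hp
    have hθ : theta 2 p σ < 0 := by
      unfold theta
      apply div_neg_of_neg_of_pos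
      · push_cast; linarith
      · linarith
    set t := theta 2 p σ with ht
    have e : (-1:ℝ) ^ 2 * ∏ j ∈ Finset.range 2, ((-t - 2 * (j:ℝ)) * (-t + n - 2 - 2 * j)) =
        -((-t) * (t + 2) * ((n - 4 - t) + 2) * (n - 4 - t)) := by
      rw [Finset.prod_range_succ, Finset.prod_range_one]
      push_cast
      ring
    rw [e]
    have h5 : 0 ≤ (-t) * (t + 2) := mul_nonneg (by linarith) (by linarith)
    have h6 : 0 ≤ ((n - 4 - t) + 2) * (n - 4 - t) := mul_nonneg (by linarith) (by linarith)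
    nlinarith [mul_nonneg h5 h6]
  · refine ⟨2, 4, 2, -5, le_rfl, by norm_num, by norm_num, by norm_num, ?_, ?_⟩
    · unfold theta; norm_num
    · apply h1 4 2 2 (-5) (by norm_num) (by norm_num) (by norm_num)
      unfold theta
      rw [Finset.prod_range_succ, Finset.prod_range_one]
      norm_num

end Pool.Agent.Results.MP_643687_an.NonexistenceBySign
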